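import Pool.Agent.helper37.CZ.SpecD

/-!
# Project cz (MP_376aaf_an), row UNI
-/

set_option autoImplicit false

open scoped Matrix Topology ComplexConjugate
open Filter

namespace Pool.Agent.CZ

structure UNI_D (η : ℝ) (P Q : ℝ → ℂ) (ξ : ℤ → ℝ) : Prop where
  pos : 0 < η
  P1 : ∀ t : ℝ, t ≤ -η → P t = 1
  Q0 : ∀ t : ℝ, t ≤ -η → Q t = 0
  P0 : ∀ t : ℝ, η ≤ t → P t = 0
  Q1 : ∀ t : ℝ, η ≤ t → Q t = 1
  nrm : ∀ t : ℝ, P t * conj (P t) + Q t * conj (Q t) = 1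
  crs : ∀ t : ℝ, Q t * conj (P t) + P t * conj (Q t) = 0
  lo : ∀ l : ℤ, 3 * η ≤ ξ l - ξ (l - 1)
  hi : ∀ l : ℤ, ξ l - ξ (l - 1) ≤ 1 - 3 * η

theorem UNI_D.dual {η : ℝ} {P Q : ℝ → ℂ} {ξ : ℤ → ℝ} (D : UNI_D η P Q ξ) :
    UNI_D η (fun t => Q (-t)) (fun t => P (-t)) (fun l => (l : ℝ) - ξ l) where
  pos := D.pos
  P1 := fun t ht => D.Q1 (-t) (by linarith)
  Q0 := fun t ht => D.P0 (-t) (by linarith)
  P0 := fun t ht => D.Q0 (-t) (by linarith)
  Q1 := fun t ht => D.P1 (-t) (by linarith)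
  nrm := fun t => by
    have := D.nrm (-t)
    rw [add_comm] at this
    exact this
  crs := fun t => by
    have := D.crs (-t)
    rw [add_comm] at this
    exact this
  lo := fun l => by
    have := D.hi l
    push_cast
    linarith
  hi := fun l => by
    have := D.lo l
    push_cast
    linarith

theorem UNI_qp {η : ℝ} {P Q : ℝ → ℂ} {ξ : ℤ → ℝ} (D : UNI_D η P Q ξ) (t t' : ℝ)
    (h : t' + 2 * η ≤ t) : (Q t * P t') * conj (Q t * P t') =
      Q t * conj (Q t) - Q t' * conj (Q t') := by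
  by_cases h1 : t' ≤ -η
  · rw [D.P1 t' h1, D.Q0 t' h1]
    simp
  · push Not at h1
    rw [D.Q1 t (by linarith), one_mul, map_one]
    have h2 := D.nrm t'
    linear_combination h2

theorem UNI_tel (f : ℤ → ℂ) (A : ℤ) (N : ℕ) (c₁ c₂ : ℂ) (h1 : ∀ a ≤ A, f a = c₁)
    (h2 : ∀ a : ℤ, A + N ≤ a → f a = c₂) : HasSum (fun a => f a - f (a - 1)) (c₂ - c₁) := by
  have h3 : HasSum (fun a => f a - f (a - 1))
      (∑ a ∈ (Finset.range N).image (fun n : ℕ => A + 1 + (n : ℤ)), (f a - f (a - 1))) := by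
    apply hasSum_sum_of_ne_finset_zero
    intro a ha
    by_cases h4 : a ≤ A
    · rw [h1 a h4, h1 (a - 1) (by omega), sub_self]
    · by_cases h5 : A + N < a
      · rw [h2 a (by omega), h2 (a - 1) (by omega), sub_self]
      · exfalso
        apply ha
        rw [Finset.mem_image]
        refine ⟨(a - A - 1).toNat, ?_, ?_⟩
        · rw [Finset.mem_range]
          omega
        · have : ((a - A - 1).toNat : ℤ) = a - A - 1 := Int.toNat_of_nonneg (by omega)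
          rw [this]
          ring
  have h4 : ∑ a ∈ (Finset.range N).image (fun n : ℕ => A + 1 + (n : ℤ)), (f a - f (a - 1))
      = c₂ - c₁ := by
    rw [Finset.sum_image (fun x _ y _ h => by
      have h5 : A + 1 + (x : ℤ) = A + 1 + (y : ℤ) := h
      omega)]
    have h6 : ∀ n : ℕ, f (A + 1 + (n : ℤ)) - f (A + 1 + (n : ℤ) - 1)
        = f (A + ((n + 1 : ℕ) : ℤ)) - f (A + (n : ℤ)) := by
      intro n
      congr 2
      · push_cast; ring
      · ring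
    rw [Finset.sum_congr rfl fun n _ => h6 n, Finset.sum_range_sub (fun n : ℕ => f (A + (n : ℤ)))]
    rw [h2 (A + N) le_rfl, h1 (A + ((0 : ℕ) : ℤ)) (by simp)]
  rw [h4] at h3
  exact h3

theorem UNI_mono {η : ℝ} {P Q : ℝ → ℂ} {ξ : ℤ → ℝ} (D : UNI_D η P Q ξ) (l : ℤ) (n : ℕ) :
    3 * η * n ≤ ξ (l + n) - ξ l := by
  induction n with
  | zero => simp
  | succ n ih =>
    have h := D.lo (l + ((n + 1 : ℕ) : ℤ))
    have e : l + ((n + 1 : ℕ) : ℤ) - 1 = l + n := by push_cast; ring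
    rw [e] at h
    push_cast at h ih ⊢
    linarith

theorem UNI_mono' {η : ℝ} {P Q : ℝ → ℂ} {ξ : ℤ → ℝ} (D : UNI_D η P Q ξ) (l l' : ℤ) (h : l ≤ l') :
    3 * η * ((l' : ℝ) - l) ≤ ξ l' - ξ l := by
  obtain ⟨n, rfl⟩ := Int.le.dest h
  have := UNI_mono D l n
  push_cast
  have e : (l : ℝ) + n - l = n := by ring
  rw [e]
  exact this

theorem UNI_low {η : ℝ} {P Q : ℝ → ℂ} {ξ : ℤ → ℝ} (D : UNI_D η P Q ξ) (x : ℝ) :
    ∃ A : ℤ, ∀ l ≤ A, ξ l ≤ x := by
  have hη := D.pos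
  refine ⟨min 0 ⌊(x - ξ 0) / (3 * η)⌋, fun l hl => ?_⟩
  have h1 : l ≤ 0 := hl.trans (min_le_left _ _)
  have h2 : l ≤ ⌊(x - ξ 0) / (3 * η)⌋ := hl.trans (min_le_right _ _)
  have h3 : (l : ℝ) ≤ (x - ξ 0) / (3 * η) := Int.le_floor.mp h2
  rw [le_div_iff₀ (by linarith)] at h3
  have h4 := UNI_mono' D l 0 h1
  push_cast at h4
  nlinarith

theorem UNI_high {η : ℝ} {P Q : ℝ → ℂ} {ξ : ℤ → ℝ} (D : UNI_D η P Q ξ) (x : ℝ) :
    ∃ B : ℤ, ∀ l : ℤ, B ≤ l → x ≤ ξ l := by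
  have hη := D.pos
  refine ⟨max 0 ⌈(x - ξ 0) / (3 * η)⌉, fun l hl => ?_⟩
  have h1 : 0 ≤ l := (le_max_left _ _).trans hl
  have h2 : ⌈(x - ξ 0) / (3 * η)⌉ ≤ l := (le_max_right _ _).trans hl
  have h3 : (x - ξ 0) / (3 * η) ≤ (l : ℝ) := Int.ceil_le.mp h2
  rw [div_le_iff₀ (by linarith)] at h3
  have h4 := UNI_mono' D 0 l h1
  push_cast at h4
  nlinarith

/-- the norm of a column -/
theorem UNI_col1 {η : ℝ} {P Q : ℝ → ℂ} {ξ : ℤ → ℝ} (D : UNI_D η P Q ξ) (a : ℤ) :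
    ∑' l : ℤ, (Q (ξ l - a) * P (ξ (l - 1) - a)) * conj (Q (ξ l - a) * P (ξ (l - 1) - a)) = 1 := by
  obtain ⟨A, hA⟩ := UNI_low D (a - η)
  obtain ⟨B, hB⟩ := UNI_high D (a + η)
  have hη := D.pos
  have h1 := UNI_tel (fun l => Q (ξ l - a) * conj (Q (ξ l - a))) A (B - A).toNat 0 1
    (fun l hl => by
      have := hA l hl
      show Q (ξ l - a) * conj (Q (ξ l - a)) = 0
      rw [D.Q0 _ (by linarith), zero_mul])
    (fun l hl => by
      have := hB l (by omega)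
      show Q (ξ l - a) * conj (Q (ξ l - a)) = 1
      rw [D.Q1 _ (by linarith), map_one, one_mul])
  rw [sub_zero] at h1
  rw [← h1.tsum_eq]
  refine tsum_congr fun l => ?_
  refine UNI_qp D _ _ ?_
  have := D.lo l
  linarith

/-- different columns -/
theorem UNI_col0 {η : ℝ} {P Q : ℝ → ℂ} {ξ : ℤ → ℝ} (D : UNI_D η P Q ξ) (a a' : ℤ) (h : a ≠ a') :
    ∑' l : ℤ, (Q (ξ l - a) * P (ξ (l - 1) - a)) * conj (Q (ξ l - a') * P (ξ (l - 1) - a')) = 0 := by
  have h0 : ∀ l : ℤ, (Q (ξ l - a) * P (ξ (l - 1) - a)) *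
      conj (Q (ξ l - a') * P (ξ (l - 1) - a')) = 0 := by
    intro l
    have hl := D.hi l
    have hη := D.pos
    rcases lt_or_gt_of_ne h with h1 | h1
    · have h2 : (a : ℝ) + 1 ≤ a' := by exact_mod_cast h1
      by_cases h3 : ξ l - a' ≤ -η
      · rw [D.Q0 _ h3]; simp
      · push Not at h3
        rw [D.P0 (ξ (l - 1) - a) (by linarith)]; simp
    · have h2 : (a' : ℝ) + 1 ≤ a := by exact_mod_cast h1
      by_cases h3 : ξ l - a ≤ -η
      · rw [D.Q0 _ h3]; simp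
      · push Not at h3
        rw [D.P0 (ξ (l - 1) - a') (by linarith)]; simp
  rw [tsum_congr h0, tsum_zero]

/-- a function with a support in a bounded set of integers is summable -/
theorem UNI_summable (f : ℤ → ℂ) (x y : ℝ) (h : ∀ a : ℤ, f a ≠ 0 → x ≤ a ∧ (a : ℝ) ≤ y) :
    Summable f := by
  apply summable_of_ne_finset_zero (s := Finset.Icc ⌊x⌋ ⌈y⌉)
  intro a ha
  by_contra h1
  obtain ⟨h2, h3⟩ := h a h1
  apply ha
  rw [Finset.mem_Icc]
  constructor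
  · exact_mod_cast (Int.floor_le x).trans h2
  · exact_mod_cast h3.trans (Int.le_ceil y)

/-- the norm of a row -/
theorem UNI_row1 {η : ℝ} {P Q : ℝ → ℂ} {ξ : ℤ → ℝ} (D : UNI_D η P Q ξ) (l : ℤ) :
    ∑' a : ℤ, (Q (ξ l - a) * P (ξ (l - 1) - a)) * conj (Q (ξ l - a) * P (ξ (l - 1) - a)) +
    ∑' b : ℤ, (P (b - l + ξ l) * Q (b - l + 1 + ξ (l - 1))) *
      conj (P (b - l + ξ l) * Q (b - l + 1 + ξ (l - 1))) = 1 := by
  have hη := D.pos
  have hlo := D.lo l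
  have hhi := D.hi l
  have e1 : ∀ a : ℤ, (Q (ξ l - a) * P (ξ (l - 1) - a)) * conj (Q (ξ l - a) * P (ξ (l - 1) - a))
      = Q (ξ l - a) * conj (Q (ξ l - a)) - Q (ξ (l - 1) - a) * conj (Q (ξ (l - 1) - a)) :=
    fun a => UNI_qp D _ _ (by linarith)
  have e2 : ∀ a : ℤ, (P (((l - a : ℤ) : ℝ) - l + ξ l) * Q (((l - a : ℤ) : ℝ) - l + 1 + ξ (l - 1))) *
      conj (P (((l - a : ℤ) : ℝ) - l + ξ l) * Q (((l - a : ℤ) : ℝ) - l + 1 + ξ (l - 1)))
      = Q (ξ (l - 1) - a + 1) * conj (Q (ξ (l - 1) - a + 1)) -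
        Q (ξ l - a) * conj (Q (ξ l - a)) := by
    intro a
    have e3 : ((l - a : ℤ) : ℝ) - l + ξ l = ξ l - a := by push_cast; ring
    have e4 : ((l - a : ℤ) : ℝ) - l + 1 + ξ (l - 1) = ξ (l - 1) - a + 1 := by push_cast; ring
    rw [e3, e4, mul_comm (P _) (Q _)]
    exact UNI_qp D _ _ (by linarith)
  have h2 : ∑' b : ℤ, (P (b - l + ξ l) * Q (b - l + 1 + ξ (l - 1))) *
      conj (P (b - l + ξ l) * Q (b - l + 1 + ξ (l - 1))) =
      ∑' a : ℤ, (Q (ξ (l - 1) - a + 1) * conj (Q (ξ (l - 1) - a + 1)) -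
        Q (ξ l - a) * conj (Q (ξ l - a))) := by
    rw [← (Equiv.subLeft l).tsum_eq]
    exact tsum_congr e2
  have s1 : Summable (fun a : ℤ =>
      Q (ξ l - a) * conj (Q (ξ l - a)) - Q (ξ (l - 1) - a) * conj (Q (ξ (l - 1) - a))) := by
    apply UNI_summable _ (ξ (l - 1) - η) (ξ l + η)
    intro a ha
    constructor
    · by_contra h
      push Not at h
      apply ha
      show Q (ξ l - a) * conj (Q (ξ l - a)) - Q (ξ (l - 1) - a) * conj (Q (ξ (l - 1) - a)) = 0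
      rw [D.Q1 _ (by linarith), D.Q1 _ (by linarith), sub_self]
    · by_contra h
      push Not at h
      apply ha
      show Q (ξ l - a) * conj (Q (ξ l - a)) - Q (ξ (l - 1) - a) * conj (Q (ξ (l - 1) - a)) = 0
      rw [D.Q0 _ (by linarith), D.Q0 _ (by linarith), sub_self]
  have s2 : Summable (fun a : ℤ => (Q (ξ (l - 1) - a + 1) * conj (Q (ξ (l - 1) - a + 1)) -
        Q (ξ l - a) * conj (Q (ξ l - a)))) := by
    apply UNI_summable _ (ξ (l - 1) - η) (ξ l + η + 1)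
    intro a ha
    constructor
    · by_contra h
      push Not at h
      apply ha
      show Q (ξ (l - 1) - a + 1) * conj (Q (ξ (l - 1) - a + 1)) -
        Q (ξ l - a) * conj (Q (ξ l - a)) = 0
      rw [D.Q1 _ (by linarith), D.Q1 _ (by linarith), sub_self]
    · by_contra h
      push Not at h
      apply ha
      show Q (ξ (l - 1) - a + 1) * conj (Q (ξ (l - 1) - a + 1)) -
        Q (ξ l - a) * conj (Q (ξ l - a)) = 0
      rw [D.Q0 _ (by linarith), D.Q0 _ (by linarith), sub_self]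
  rw [tsum_congr e1, h2, ← s1.tsum_add s2]
  have h3 := UNI_tel (fun a => -(Q (ξ (l - 1) - a) * conj (Q (ξ (l - 1) - a))))
    (⌊ξ (l - 1) - η⌋) (⌈ξ (l - 1) + η⌉ - ⌊ξ (l - 1) - η⌋).toNat (-1) 0
    (fun a ha => by
      have h4 : (a : ℝ) ≤ ξ (l - 1) - η := Int.le_floor.mp ha
      show -(Q (ξ (l - 1) - a) * conj (Q (ξ (l - 1) - a))) = -1
      rw [D.Q1 _ (by linarith), map_one, one_mul])
    (fun a ha => by
      have h4 : ξ (l - 1) + η ≤ (a : ℝ) := Int.ceil_le.mp (by omega)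
      show -(Q (ξ (l - 1) - a) * conj (Q (ξ (l - 1) - a))) = 0
      rw [D.Q0 _ (by linarith), zero_mul, neg_zero])
  have h4 : (0 : ℂ) - -1 = 1 := by ring
  rw [h4] at h3
  rw [← h3.tsum_eq]
  refine tsum_congr fun a => ?_
  have e5 : ξ (l - 1) - ((a - 1 : ℤ) : ℝ) = ξ (l - 1) - a + 1 := by push_cast; ring
  rw [e5]
  ring

/-- neighbouring rows -/
theorem UNI_rowN {η : ℝ} {P Q : ℝ → ℂ} {ξ : ℤ → ℝ} (D : UNI_D η P Q ξ) (l : ℤ) :
    ∑' a : ℤ, (Q (ξ l - a) * P (ξ (l - 1) - a)) *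
      conj (Q (ξ (l + 1) - a) * P (ξ (l + 1 - 1) - a)) +
    ∑' b : ℤ, (P (b - l + ξ l) * Q (b - l + 1 + ξ (l - 1))) *
      conj (P (b - (l + 1 : ℤ) + ξ (l + 1)) * Q (b - (l + 1 : ℤ) + 1 + ξ (l + 1 - 1))) = 0 := by
  have hη := D.pos
  have hlo := D.lo l
  have hhi := D.hi l
  have hlo' := D.lo (l + 1)
  have hhi' := D.hi (l + 1)
  have e0 : l + 1 - 1 = l := by ring
  rw [e0] at hlo' hhi' ⊢
  have e1 : ∀ a : ℤ, (Q (ξ l - a) * P (ξ (l - 1) - a)) *
      conj (Q (ξ (l + 1) - a) * P (ξ l - a)) = Q (ξ l - a) * conj (P (ξ l - a)) := by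
    intro a
    by_cases h1 : ξ l - a ≤ -η
    · rw [D.Q0 _ h1]; simp
    by_cases h2 : η ≤ ξ l - a
    · rw [D.P0 _ h2]; simp
    push Not at h1 h2
    rw [D.P1 (ξ (l - 1) - a) (by linarith), D.Q1 (ξ (l + 1) - a) (by linarith)]
    simp
  have e2 : ∀ a : ℤ, (P (((l - a : ℤ) : ℝ) - l + ξ l) * Q (((l - a : ℤ) : ℝ) - l + 1 + ξ (l - 1))) *
      conj (P (((l - a : ℤ) : ℝ) - (l + 1 : ℤ) + ξ (l + 1)) *
        Q (((l - a : ℤ) : ℝ) - (l + 1 : ℤ) + 1 + ξ l)) = P (ξ l - a) * conj (Q (ξ l - a)) := by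
    intro a
    have e3 : ((l - a : ℤ) : ℝ) - l + ξ l = ξ l - a := by push_cast; ring
    have e4 : ((l - a : ℤ) : ℝ) - l + 1 + ξ (l - 1) = ξ (l - 1) - a + 1 := by push_cast; ring
    have e5 : ((l - a : ℤ) : ℝ) - (l + 1 : ℤ) + ξ (l + 1) = ξ (l + 1) - a - 1 := by
      push_cast; ring
    have e6 : ((l - a : ℤ) : ℝ) - (l + 1 : ℤ) + 1 + ξ l = ξ l - a := by push_cast; ring
    rw [e3, e4, e5, e6]
    by_cases h1 : ξ l - a ≤ -η
    · rw [D.Q0 _ h1]; simp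
    by_cases h2 : η ≤ ξ l - a
    · rw [D.P0 _ h2]; simp
    push Not at h1 h2
    rw [D.Q1 (ξ (l - 1) - a + 1) (by linarith), D.P1 (ξ (l + 1) - a - 1) (by linarith)]
    simp
  have h2 : ∑' b : ℤ, (P (b - l + ξ l) * Q (b - l + 1 + ξ (l - 1))) *
      conj (P (b - (l + 1 : ℤ) + ξ (l + 1)) * Q (b - (l + 1 : ℤ) + 1 + ξ l)) =
      ∑' a : ℤ, P (ξ l - a) * conj (Q (ξ l - a)) := by
    rw [← (Equiv.subLeft l).tsum_eq]
    exact tsum_congr e2
  have s1 : Summable (fun a : ℤ => Q (ξ l - a) * conj (P (ξ l - a))) := by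
    apply UNI_summable _ (ξ l - η) (ξ l + η)
    intro a ha
    constructor
    · by_contra h
      push Not at h
      apply ha
      show Q (ξ l - a) * conj (P (ξ l - a)) = 0
      rw [D.P0 _ (by linarith)]; simp
    · by_contra h
      push Not at h
      apply ha
      show Q (ξ l - a) * conj (P (ξ l - a)) = 0
      rw [D.Q0 _ (by linarith)]; simp
  have s2 : Summable (fun a : ℤ => P (ξ l - a) * conj (Q (ξ l - a))) := by
    apply UNI_summable _ (ξ l - η) (ξ l + η)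
    intro a ha
    constructor
    · by_contra h
      push Not at h
      apply ha
      show P (ξ l - a) * conj (Q (ξ l - a)) = 0
      rw [D.P0 _ (by linarith)]; simp
    · by_contra h
      push Not at h
      apply ha
      show P (ξ l - a) * conj (Q (ξ l - a)) = 0
      rw [D.Q0 _ (by linarith)]; simp
  rw [tsum_congr e1, h2, ← s1.tsum_add s2]
  rw [tsum_congr fun a : ℤ => D.crs (ξ l - a), tsum_zero]

/-- distant rows -/
theorem UNI_rowF {η : ℝ} {P Q : ℝ → ℂ} {ξ : ℤ → ℝ} (D : UNI_D η P Q ξ) (l l' : ℤ)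
    (h : l + 1 < l') (a : ℤ) :
    (Q (ξ l - a) * P (ξ (l - 1) - a)) * conj (Q (ξ l' - a) * P (ξ (l' - 1) - a)) = 0 := by
  have hη := D.pos
  by_cases h1 : ξ l - a ≤ -η
  · rw [D.Q0 _ h1]; simp
  · push Not at h1
    have h2 := UNI_mono' D l (l' - 1) (by omega)
    have h3 : (1 : ℝ) ≤ ((l' - 1 : ℤ) : ℝ) - l := by
      have : l + 1 ≤ l' - 1 := by omega
      have h4 : ((l + 1 : ℤ) : ℝ) ≤ ((l' - 1 : ℤ) : ℝ) := by exact_mod_cast this
      push_cast at h4 ⊢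
      linarith
    have h5 : 3 * η * 1 ≤ 3 * η * (((l' - 1 : ℤ) : ℝ) - l) :=
      mul_le_mul_of_nonneg_left h3 (by linarith)
    rw [D.P0 (ξ (l' - 1) - a) (by linarith)]
    simp

/-- columns of different kinds -/
theorem UNI_mix {η : ℝ} {P Q : ℝ → ℂ} {ξ : ℤ → ℝ} (D : UNI_D η P Q ξ) (a b : ℤ) :
    ∑' l : ℤ, (Q (ξ l - a) * P (ξ (l - 1) - a)) *
      conj (P (b - l + ξ l) * Q (b - l + 1 + ξ (l - 1))) = 0 := by
  have hη := D.pos
  have h0 : ∀ l : ℤ, l ∉ ({a + b, a + b + 1} : Finset ℤ) →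
      (Q (ξ l - a) * P (ξ (l - 1) - a)) *
      conj (P (b - l + ξ l) * Q (b - l + 1 + ξ (l - 1))) = 0 := by
    intro l hl
    have hlo := D.lo l
    have hhi := D.hi l
    rw [Finset.mem_insert, Finset.mem_singleton, not_or] at hl
    have h6 : η < 1 / 2 := by linarith
    rcases lt_or_ge l (a + b) with h1 | h1
    · have h2 : (l : ℝ) + 1 ≤ a + b := by exact_mod_cast h1
      by_cases h3 : ξ l - a ≤ -η
      · rw [D.Q0 _ h3]; simp
      · push Not at h3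
        rw [D.P0 (b - l + ξ l) (by linarith)]; simp
    · have h2 : (a : ℝ) + b + 2 ≤ l := by
        have : a + b + 2 ≤ l := by omega
        exact_mod_cast this
      by_cases h3 : η ≤ ξ (l - 1) - a
      · rw [D.P0 _ h3]; simp
      · push Not at h3
        rw [D.Q0 (b - l + 1 + ξ (l - 1)) (by linarith)]; simp
  rw [tsum_eq_sum h0, Finset.sum_pair (by omega)]
  have hlo := D.lo (a + b)
  have hhi := D.hi (a + b)
  have hlo' := D.lo (a + b + 1)
  have hhi' := D.hi (a + b + 1)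
  have e0 : a + b + 1 - 1 = a + b := by ring
  rw [e0] at hlo' hhi' ⊢
  have e1 : (b : ℝ) - ((a + b : ℤ) : ℝ) + ξ (a + b) = ξ (a + b) - a := by push_cast; ring
  have e2 : (b : ℝ) - ((a + b + 1 : ℤ) : ℝ) + 1 + ξ (a + b) = ξ (a + b) - a := by
    push_cast; ring
  have e3 : (b : ℝ) - ((a + b : ℤ) : ℝ) + 1 + ξ (a + b - 1) = ξ (a + b - 1) - a + 1 := by
    push_cast; ring
  have e4 : (b : ℝ) - ((a + b + 1 : ℤ) : ℝ) + ξ (a + b + 1) = ξ (a + b + 1) - a - 1 := by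
    push_cast; ring
  rw [e1, e2, e3, e4]
  by_cases h1 : ξ (a + b) - a ≤ -η
  · rw [D.Q0 _ h1]; simp
  by_cases h2 : η ≤ ξ (a + b) - a
  · rw [D.P0 _ h2]; simp
  push Not at h1 h2
  rw [D.P1 (ξ (a + b - 1) - a) (by linarith), D.Q1 (ξ (a + b - 1) - a + 1) (by linarith),
    D.Q1 (ξ (a + b + 1) - a) (by linarith), D.P1 (ξ (a + b + 1) - a - 1) (by linarith)]
  have h3 := D.crs (ξ (a + b) - a)
  simp only [mul_one, one_mul]
  exact h3

theorem UNI_data (δ₀ : ℝ) (h : 0 < δ₀) (ξ : ℤ → ℝ)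
    (hξ : ∀ l, δ₀ ≤ ξ l - ξ (l - 1) ∧ ξ l - ξ (l - 1) ≤ 1 - δ₀) :
    UNI_D (δ₀ / 3) (PP (δ₀ / 3)) (QQ (δ₀ / 3)) ξ := by
  have hz : ∀ t, zz (δ₀ / 3) t * conj (zz (δ₀ / 3) t) = 1 := by
    intro t
    unfold zz
    rw [← Complex.exp_conj, ← Complex.exp_add]
    have e : Real.pi * Complex.I * ((max 0 (min 1 ((t + δ₀ / 3) / (2 * (δ₀ / 3)))) : ℝ) : ℂ) +
        conj (Real.pi * Complex.I * ((max 0 (min 1 ((t + δ₀ / 3) / (2 * (δ₀ / 3)))) : ℝ) : ℂ))
        = 0 := by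
      simp only [map_mul, Complex.conj_ofReal, Complex.conj_I]
      ring
    rw [e, Complex.exp_zero]
  have hlow : ∀ t : ℝ, t ≤ -(δ₀ / 3) → zz (δ₀ / 3) t = 1 := by
    intro t ht
    unfold zz
    have e : max 0 (min 1 ((t + δ₀ / 3) / (2 * (δ₀ / 3)))) = 0 := by
      apply max_eq_left
      refine (min_le_right _ _).trans ?_
      apply div_nonpos_of_nonpos_of_nonneg <;> linarith
    rw [e]
    simp
  have hhigh : ∀ t : ℝ, δ₀ / 3 ≤ t → zz (δ₀ / 3) t = -1 := by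
    intro t ht
    unfold zz
    have e : max 0 (min 1 ((t + δ₀ / 3) / (2 * (δ₀ / 3)))) = 1 := by
      have h1 : (1 : ℝ) ≤ (t + δ₀ / 3) / (2 * (δ₀ / 3)) := by
        rw [le_div_iff₀ (by linarith)]
        linarith
      rw [min_eq_left h1]
      norm_num
    rw [e]
    simp [Complex.exp_pi_mul_I]
  have hη : 3 * (δ₀ / 3) = δ₀ := by ring
  refine ⟨by linarith, ?_, ?_, ?_, ?_, ?_, ?_, ?_, ?_⟩
  · intro t ht
    unfold PP
    rw [hlow t ht]
    norm_num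
  · intro t ht
    unfold QQ
    rw [hlow t ht]
    norm_num
  · intro t ht
    unfold PP
    rw [hhigh t ht]
    norm_num
  · intro t ht
    unfold QQ
    rw [hhigh t ht]
    norm_num
  · intro t
    unfold PP QQ
    have h1 := hz t
    simp only [map_div₀, map_add, map_sub, map_one, Complex.conj_ofNat]
    linear_combination (1 / 2) * h1
  · intro t
    unfold PP QQ
    have h1 := hz t
    simp only [map_div₀, map_add, map_sub, map_one, Complex.conj_ofNat]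
    linear_combination (-1 / 2) * h1
  · intro l
    rw [hη]
    exact (hξ l).1
  · intro l
    rw [hη]
    exact (hξ l).2

theorem UNI : UNI_stmt := by
  intro δ₀ h0 ξ hξ Ua Ub hUa hUb
  have D := UNI_data δ₀ h0 ξ hξ
  have D' := D.dual
  have hUb' : ∀ l b : ℤ, Ub l b = PP (δ₀ / 3) (-(((l : ℤ) : ℝ) - ξ l - b)) *
      QQ (δ₀ / 3) (-(((l - 1 : ℤ) : ℝ) - ξ (l - 1) - b)) := by
    intro l b
    rw [hUb]
    congr 2
    · ring
    · push_cast; ring
  have hconja : ∀ (f g : ℤ → ℂ), ∑' a, f a * conj (g a) = conj (∑' a, g a * conj (f a)) := by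
    intro f g
    rw [Complex.conj_tsum]
    refine tsum_congr fun a => ?_
    rw [map_mul, Complex.conj_conj, mul_comm]
  have hrowlt : ∀ l l' : ℤ, l < l' →
      ∑' a : ℤ, Ua l a * conj (Ua l' a) + ∑' b : ℤ, Ub l b * conj (Ub l' b) = 0 := by
    intro l l' hll
    rcases eq_or_lt_of_le (show l + 1 ≤ l' by omega) with h1 | h1
    · subst h1
      have h2 := UNI_rowN D l
      simp only [hUa, hUb]
      exact h2
    · have h2 : ∀ a : ℤ, Ua l a * conj (Ua l' a) = 0 := by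
        intro a
        rw [hUa, hUa]
        exact UNI_rowF D l l' h1 a
      have h3 : ∀ b : ℤ, Ub l b * conj (Ub l' b) = 0 := by
        intro b
        rw [hUb', hUb']
        exact UNI_rowF D' l l' h1 b
      rw [tsum_congr h2, tsum_congr h3, tsum_zero, add_zero]
  refine ⟨?_, ?_, ?_, ?_, ?_, ?_, ?_, ?_⟩
  · intro l
    simp only [hUa, hUb]
    exact UNI_row1 D l
  · intro l l' hne
    rcases lt_or_gt_of_ne hne with h1 | h1
    · exact hrowlt l l' h1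
    · rw [hconja (Ua l) (Ua l'), hconja (Ub l) (Ub l'), ← map_add, hrowlt l' l h1, map_zero]
  · intro a
    simp only [hUa]
    exact UNI_col1 D a
  · intro a a' h
    simp only [hUa]
    exact UNI_col0 D a a' h
  · intro b
    simp only [hUb']
    exact UNI_col1 D' b
  · intro b b' h
    simp only [hUb']
    exact UNI_col0 D' b b' h
  · intro a b
    simp only [hUa, hUb]
    exact UNI_mix D a b
  · intro a b
    rw [hconja (fun l => Ub l b) (fun l => Ua l a)]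
    have h1 : ∑' l : ℤ, Ua l a * conj (Ub l b) = 0 := by
      simp only [hUa, hUb]
      exact UNI_mix D a b
    rw [h1, map_zero]

end Pool.Agent.CZ
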